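import Pool.Agent.H45.KC.BernB

/-!
# FD, link: half range power sums and Bernoulli numbers (helper2)

For an odd `j`, `3 ≤ j ≤ p - 2`, the sum `∑_(i ≤ (p-1)/2) i^(-j)` modulo `p` is `(2^j - 2) β` with
`β = 0` iff `p` divides the numerator of `B_(p-j)` (`bern_sum` of `H45/KC/BernB` with `b = 1`).
-/

set_option autoImplicit false

namespace Pool.Agent.H2.FD

open Finset H45KC

private theorem tb_one (p : ℕ) [Fact p.Prime] (hp : 3 ≤ p) (j : ℕ) (hj : Odd j) :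
    ∑ t ∈ TB p 1, (((t⁻¹ : (ZMod p)ˣ) : ZMod p)) ^ j =
      -∑ i ∈ Icc 1 ((p - 1) / 2), ((i : ZMod p)⁻¹) ^ j := by
  have hpp : p.Prime := Fact.out
  have hodd : p % 2 = 1 := Nat.odd_iff.1 (hpp.odd_of_ne_two (by omega))
  have hmem : ∀ t : (ZMod p)ˣ, t ∈ TB p 1 ↔ p < 2 * t.val.val := by
    intro t
    unfold TB
    rw [mem_filter, one_mul, Nat.mod_eq_of_lt (ZMod.val_lt _), ← two_mul]
    simp
  have hneg : ∀ t : (ZMod p)ˣ, ((-t : (ZMod p)ˣ) : ZMod p).val = p - t.val.val := by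
    intro t
    rw [Units.val_neg, ZMod.neg_val, if_neg (Units.ne_zero t)]
  rw [← sum_neg_distrib]
  refine sum_nbij (fun t : (ZMod p)ˣ => ((-t : (ZMod p)ˣ) : ZMod p).val) ?_ ?_ ?_ ?_
  · intro t ht
    have h1 := (hmem t).1 ht
    have h2 := ZMod.val_lt (t : ZMod p)
    show ((-t : (ZMod p)ˣ) : ZMod p).val ∈ _
    rw [hneg, mem_Icc]
    omega
  · intro s _ t _ h
    exact neg_injective (Units.ext (ZMod.val_injective p h))
  · intro i hi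
    have hi' := mem_Icc.1 (mem_coe.1 hi)
    have h1 : ((i : ℕ) : ZMod p) ≠ 0 := by
      rw [Ne, ZMod.natCast_eq_zero_iff]
      exact Nat.not_dvd_of_pos_of_lt (by omega) (by omega)
    have h2 : ((Units.mk0 (i : ZMod p) h1 : (ZMod p)ˣ) : ZMod p).val = i := by
      rw [Units.val_mk0, ZMod.val_natCast, Nat.mod_eq_of_lt (by omega)]
    refine ⟨-Units.mk0 _ h1, ?_, ?_⟩
    · rw [mem_coe, hmem, hneg, h2]
      omega
    · show ((- -Units.mk0 (i : ZMod p) h1 : (ZMod p)ˣ) : ZMod p).val = i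
      rw [neg_neg, h2]
  · intro t _
    show ((t⁻¹ : (ZMod p)ˣ) : ZMod p) ^ j = -(((((-t : (ZMod p)ˣ) : ZMod p).val : ℕ) : ZMod p)⁻¹) ^ j
    rw [ZMod.natCast_zmod_val, Units.val_neg, inv_neg, hj.neg_pow, neg_neg, Units.val_inv_eq_inv_val]

/-- half range power sums and Bernoulli numbers -/
theorem half_sum (p : ℕ) [Fact p.Prime] (j : ℕ) (hj : Odd j) (h3 : 3 ≤ j) (hjp : j + 2 ≤ p) :
    ∃ β : ZMod p, (β = 0 ↔ (p : ℤ) ∣ (bernoulli (p - j)).num) ∧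
      ∑ i ∈ Icc 1 ((p - 1) / 2), ((i : ZMod p)⁻¹) ^ j = (2 ^ j - 2) * β := by
  obtain ⟨β, h1, h2⟩ := bern_sum p j hj h3 hjp
  refine ⟨β, h1, ?_⟩
  have h4 := h2 1 le_rfl (by omega)
  rw [tb_one p (by omega) j hj] at h4
  push_cast at h4
  linear_combination -h4

theorem half_zero (p : ℕ) [Fact p.Prime] (j : ℕ) (hj : Odd j) (h3 : 3 ≤ j) (hjp : j + 2 ≤ p)
    (hB : (p : ℤ) ∣ (bernoulli (p - j)).num) :
    ∑ i ∈ Icc 1 ((p - 1) / 2), ((i : ZMod p)⁻¹) ^ j = 0 := by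
  obtain ⟨β, h1, h2⟩ := half_sum p j hj h3 hjp
  rw [h2, h1.2 hB, mul_zero]

/-- the form with the even index `i = p - j` -/
theorem half_bernoulli (p : ℕ) [Fact p.Prime] (hp : 5 ≤ p) (i : ℕ) (hi : Even i) (h2 : 2 ≤ i)
    (hip : i + 3 ≤ p) (hb : (p : ℤ) ∣ (bernoulli i).num) :
    ∑ j ∈ Icc 1 ((p - 1) / 2), ((j : ZMod p)⁻¹) ^ (p - i) = 0 := by
  have hpp : p.Prime := Fact.out
  have hodd : Odd p := hpp.odd_of_ne_two (by omega)
  refine half_zero p (p - i) (Nat.Odd.sub_even (by omega) hodd hi) (by omega) (by omega) ?_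
  have h1 : p - (p - i) = i := by omega
  rw [h1]
  exact hb

/-- the signed sum over the two middle sixths -/
theorem tb_zero (p : ℕ) [Fact p.Prime] (j : ℕ) (hj : Odd j) (h3 : 3 ≤ j) (hjp : j + 2 ≤ p)
    (hB : (p : ℤ) ∣ (bernoulli (p - j)).num) (b : ℕ) (hb1 : 1 ≤ b) (hb2 : b + 2 ≤ p) :
    ∑ t ∈ TB p b, (((t⁻¹ : (ZMod p)ˣ) : ZMod p)) ^ j = 0 := by
  obtain ⟨β, h1, h2⟩ := bern_sum p j hj h3 hjp
  rw [h2 b hb1 hb2, h1.2 hB, mul_zero]

end Pool.Agent.H2.FD
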