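import Pool.Agent.H8.FD.Fam
import Pool.Agent.H2.FD.Half

/-!
# FD, link: `H8FD.SS p j = 0` if `p` divides the numerator of `B_(p-j)` (helper2)
-/

set_option autoImplicit false

namespace Pool.Agent.H2.FD

theorem SS_zero (p : ℕ) [Fact p.Prime] (j : ℕ) (hj : Odd j) (h3 : 3 ≤ j) (hjp : j < p)
    (hB : (p : ℤ) ∣ (bernoulli (p - j)).num) : H8FD.SS p j = 0 := by
  have hpp : p.Prime := Fact.out
  have h1 : p % 2 = 1 := Nat.odd_iff.1 (hpp.odd_of_ne_two (by omega))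
  have h2 := Nat.odd_iff.1 hj
  exact half_zero p j hj h3 (by omega) hB

/-- the full hypothesis of `H8FD.GI_congr` for a gap `(w, v]` and equal power sums up to `w` -/
theorem GI_congr_gap (p : ℕ) [Fact p.Prime] (hp2 : p ≠ 2) (w v e : ℕ) (hw : 2 ≤ w) (he : e ≤ v + 1)
    (hep : e < p) (hg : ∀ j : ℕ, Odd j → w < j → j ≤ v → (p : ℤ) ∣ (bernoulli (p - j)).num)
    (I J : Finset ℕ) (hIJ : ∀ k, 1 ≤ k → k ≤ w → ∑ n ∈ I, n ^ k = ∑ n ∈ J, n ^ k) :
    Polynomial.X ^ e ∣ H8FD.GI p I - H8FD.GI p J := by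
  refine H8FD.GI_congr p I J e hep.le fun k hk1 hke => ?_
  rcases Nat.lt_or_ge w k with hk | hk
  · left
    rcases Nat.even_or_odd k with h | h
    · exact H8FD.SS_even p hp2 k h (by omega) (by omega)
    · exact SS_zero p k h (by omega) (by omega) (hg k h hk (by omega))
  · exact Or.inr (hIJ k hk1 hk)

end Pool.Agent.H2.FD
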